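import Mathlib
import Pool.Agent.Helper58K9.ET.Asm
import Pool.Agent.Helper58K9.ET.Dens
import Pool.Agent.Helper58K9.ET.Down
import Pool.Agent.Helper58K9.ET.Up
import Pool.Agent.Helper58K9.ET.Extd
import Pool.Agent.Helper58K9.ET.Appr
import Pool.Agent.Helper58K9.ET.Chg
import Pool.Agent.Helper58K9.ET.Opn
import Pool.Agent.Helper58K9.ET.Refl

/-!
# Lower semicontinuity of minimal log discrepancies, for all varieties which are étale locally
general arrangement varieties

A general arrangement variety `Y` with the attractive fixed point `P`: an affine variety of dimension
`c + n` with the action of a torus of dimension `n`, of any complexity `c ≥ 1`, such that the rational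
quotient by the torus is `ℙ^c` and the critical divisor is contained in the union of any number of
hyperplanes in general position. We assume that `Y` is of klt type, and `B'` is an invariant boundary
(for `c ≥ 2` supported on the horizontal divisors and over these hyperplanes: by `IsEq` the local
equation of `K_Y + B'` is a real character).

`(X, B)`: any pair, `K_X + B` is `ℝ`-Cartier, with the local equations `E x` at the closed points `x`.
Assume that `(X, B)` is at the closed point `x` étale locally isomorphic to a pair `(Y, B')` at `P`:
there is a variety `U` with étale morphisms `U → X` and `U → Y` and a closed point of `U` over `x` and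
`P`, such that the pull-backs to `U` of `K_X + B` and of `K_Y + B'` agree. Nothing is assumed about a
torus action on `X`.

Theorem: the function `mld (X, B)` on the closed points of `X` is lower semicontinuous at `x`: there
is an open neighbourhood of `x` with `mld_x' (X, B) ≥ mld_x (X, B)` for all its closed points `x'`. So
it is lower semicontinuous on `X` if the assumption holds for all closed points `x`.

By Luna's slice theorem (this is not part of the Lean file) the assumption holds at all closed points
of all normal varieties with a torus action of complexity one, of klt type and of dimension at least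
two, and for all invariant boundaries. (At a closed point the slice is, étale locally, either toric
or a rational variety with a torus action of complexity one and an attractive fixed point. A toric
germ of dimension at least two is a general arrangement variety with `c = 1` and two points
on `ℙ^1`.)

All definitions are in `Pool.Agent.Helper58K9.ET.Defs` (`Etale`, `Etale.im`, `OverPt`, `Ext`, `ordE`,
`Common`, `IsArr`), `Pool.Agent.Helper58K9.AR.Defs` (`Fan`, `vl`, `Fan.val`, `Fan.Mem`, `Fan.IsCone`,
`lf`, `ch`, `ArrGerm`, `ArrGerm.l`, `IsEq`, `KltType`), `Pool.Agent.Helper58K9.AR.Mld` (`mld`) and in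
the starting files `H436R3.Fol.Defs`, `H436R3.KT.Defs`, `W497.Mld.Defs` (valuations, `Foliation`,
`IsCanOrd`, `AffVar`, `Pt`, `EffDiv`, `LocEq`, `IsOverGerm`, `IsLogDisc`) and `TH165.ACC.Lau` (`pr`).
-/

set_option autoImplicit false

namespace Pool.Agent.Results.MP_f23696_ag.ArrangementSingularities

open Pool.Agent.H436R3.Fol Pool.Agent.H436R3.KT Pool.Agent.W497.Mld Pool.Agent.Helper58K9.AR
  Pool.Agent.Helper58K9.ET

/-- The assumption holds for a general arrangement variety itself, at the fixed point. -/
theorem arr_mem {c n : ℕ} (hc : 0 < c) {K : Type} [Field K] [Algebra ℂ K] (g : ArrGerm c n K)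
    (hk : KltType g) (B : EffDiv g.X) (u : Fin n → ℝ) (η : Fin g.F.q → ℝ)
    (E : ∀ y : Pt g.X, LocEq B y) (hE : ∀ y, IsEq g (E y) u η) : IsArr E g.P :=
  ⟨c, n, hc, K, inferInstance, inferInstance, g, hk, B, u, η, E, hE, common_refl E g.P⟩

/-- **Lower semicontinuity of minimal log discrepancies** at the closed point `x` of the pair
`(X, B)`, if `(X, B)` is étale locally at `x` a general arrangement variety of klt type with an
invariant boundary. -/
theorem result {K : Type} [Field K] [Algebra ℂ K] (X : AffVar K) (B : EffDiv X)
    (E : ∀ x : Pt X, LocEq B x) (x : Pt X) (hx : IsArr E x) :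
    ∃ f : X.R, x f ≠ 0 ∧ ∀ x' : Pt X, x' f ≠ 0 → mld (E x) ≤ mld (E x') :=
  arr_lsc up (down dens frac) dens (extd frac) appr chg opn hx

end Pool.Agent.Results.MP_f23696_ag.ArrangementSingularities
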