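import Mathlib
import Pool.Agent.Helper43K9.LN.All

/-!
# Lower semicontinuity of minimal log discrepancies for boundaries which are not toric

`Y`: an affine toric variety of dimension `n` with a fixed point, given by any strictly convex
rational cone of dimension `n` (simplicial or not). `X_1, ..., X_s`: divisors on `Y`, the closures of
the zero sets in the torus of Laurent polynomials `F_1, ..., F_s`. Each `X_j` is nondegenerate
(Khovanskii, Kouchnirenko): for all weights `w` in the cone the zero set in the torus of the initial
form of `F_j` is smooth. Nothing is assumed on the mutual position of the `X_j`, and they may be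
reducible or contain the fixed point or not. `B = ∑ b_j X_j + ∑ β_i D_i` with `b_j ≥ 0`, `β_i ≥ 0` and
the toric prime divisors `D_i`, such that `K_Y + B` is `ℝ`-Cartier.

Theorem: the function `x ↦ mld_x (Y, B)` on the closed points of `Y` is lower semicontinuous at every
closed point `x0` (on any torus orbit) such that the sum of the `b_j` over the `X_j` through `x0` is at
most `1`; so it is lower semicontinuous if this holds at all points. More precisely every closed point
`x0` of `Y` has an open neighbourhood `U`, which depends only on `x0` and the `F_j`, such that
`mld_x (Y, B) ≥ mld_x0 (Y, B)` for all closed points `x` of `U` and all these `B`.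

The proof: let `x0` be on the orbit of the face `σ0` of the cone, of dimension `k`. Let `v` be a prime
divisor over `Y` with centre `x ∈ U` and with weights `w`; then `w ∈ σ0`. There is a set `J` of edges
of `σ0`, with `|J|` monomials which are constant modulo `v`, such that `w' = w + ∑_J E_i` lies in the
relative interior of `σ0`. The logarithmic derivatives of these monomials, of `k` characters of the
orbit and of the `F_j` whose order at `v` is bigger than expected give a lower bound for the log
discrepancy of `v`; only the largest of the excess orders enters, as the sum of the `b_j` is at most
`1`. The log discrepancies at `x0` are bounded from above by the quasimonomial divisor over `x0` with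
the weights `w'` on the monomials and `1` on `k` local coordinates of the orbit at `x0`. If the order of
all these `F_j` grows by the extra amount one from `v` to this divisor we are done. Otherwise some `F_j`
has a class of monomials, least for `w` and all `E_i` and with a sum which is not zero at `x0`, and, as
`x` is near `x0`, a twist of `F_j` provides one more logarithmic derivative.
-/

set_option autoImplicit false

namespace Pool.Agent.Results.MP_f23696_ag.NonToricBoundaries

open Pool.Agent.W497.Mld Pool.Agent.H436R3.KT Pool.Agent.Helper43K9.LN Pool.Agent.Helper43K9.LS
open Pool.Agent.TH165.ACC (ToricGerm)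

/-- **Lower semicontinuity of minimal log discrepancies at the closed points of toric varieties.** -/
theorem result (n : ℕ) (K : Type) [Field K] [Algebra ℂ K] [Algebra (MvPolynomial (Fin n) ℂ) K]
    [IsFractionRing (MvPolynomial (Fin n) ℂ) K] [IsScalarTower ℂ (MvPolynomial (Fin n) ℂ) K]
    (g : ToricGerm n K) (s : ℕ) (F : Fin s → MvPolynomial (Fin n) ℂ) (hF : ∀ j, F j ≠ 0)
    (hnd : ∀ j, Pool.Agent.Helper43K9.LN.Nondeg g (F j)) (x0 : Pt g.X) :
    ∃ f : g.X.R, x0 f ≠ 0 ∧ ∀ x : Pt g.X, x f ≠ 0 →
      ∀ b : Bdry g F, sumAt b x0 ≤ 1 → ∀ (B : EffDiv g.X) (e : LocEq B x0) (e' : LocEq B x),
        IsEqAt b e → IsEqAt b e' → mld e ≤ mld e' :=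
  all g F hF hnd x0

end Pool.Agent.Results.MP_f23696_ag.NonToricBoundaries
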