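import Mathlib
import Pool.Agent.Helper43K9.LS.Semi

/-!
# Lower semicontinuity of minimal log discrepancies of nondegenerate hypersurfaces

`Y ∋ P`: an affine toric variety of dimension `d + 1` with a fixed point, given by any strictly
convex rational cone of dimension `d + 1` (simplicial or not). `X ⊂ Y`: a hypersurface through `P`,
the closure of the zero set in the torus of an irreducible Laurent polynomial `F` which is
nondegenerate (Khovanskii, Kouchnirenko): for all weights `w` in the cone the zero set in the torus of
the initial form of `F` is smooth. `∑ β_i D_i`: a toric boundary on `Y` with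
`K_Y + X + ∑ β_i D_i` `ℝ`-Cartier, and `B` the boundary on `X` with
`K_X + B = (K_Y + X + ∑ β_i D_i)|_X`. The variety `X` is normal and of klt type at `P`.

Theorem: the function `x ↦ mld_x (X, B)` on the closed points of `X` is lower semicontinuous at `P`.
More precisely there is an open neighbourhood `U` of `P` in `X`, which does not depend on the
boundary, such that `mld_x (X, B) ≥ mld_P (X, B)` for all closed points `x` of `U`, on all the orbits
of the torus.

The proof: if `v` is a prime divisor over `X` with centre `x ∈ U` and with weights `w`, a point of the
relative interior of a face of the cone, then there is a set `J` of edges of the cone such that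
`w + ∑_J E_j` lies in the interior of the cone and the log discrepancy of `v` is at least
`ψ · w' - φ (w')` for `w' = w + ∑_J E_j`; and `mld_P (X, B)` is at most this number, by the results
on germs of `Pool.Agent.Helper43K9.NH`.
-/

set_option autoImplicit false

namespace Pool.Agent.Results.MP_f23696_ag.NondegHypersurfaces

open Pool.Agent.W497.Mld Pool.Agent.H436R3.KT Pool.Agent.Helper43K9.NH Pool.Agent.Helper43K9.LS

/-- **Lower semicontinuity of minimal log discrepancies at the fixed point.** -/
theorem result (d : ℕ) (L : Type) [Field L] [Algebra ℂ L] (g : HypGerm d L) (hg : Nondeg g)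
    (hn : IsNormal g.X) (hk : KltType g) :
    ∃ f : g.X.R, g.P f ≠ 0 ∧ ∀ x : Pt g.X, x f ≠ 0 →
      ∀ (b : Bd g) (B : EffDiv g.X) (e : LocEq B g.P) (e' : LocEq B x),
        IsRestrAt b e → IsRestrAt b e' → mld e ≤ mld e' := by
  obtain ⟨f, hf, h⟩ := core g hg
  exact ⟨f, hf, fun x hx b B e e' he he' =>
    semi hk he he' fun v hv c hc => h x hx v hv c hc b⟩

end Pool.Agent.Results.MP_f23696_ag.NondegHypersurfaces
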