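import Mathlib
import Pool.Agent.Helper58K9.LQ.Fin
import Pool.Agent.Helper58K9.LQ.Face
import Pool.Agent.Helper58K9.LQ.Comb2
import Pool.Agent.Helper58K9.LQ.Tau2
import Pool.Agent.Helper58K9.LQ.Diag2
import Pool.Agent.Helper58K9.LQ.Low2
import Pool.Agent.Helper58K9.LQ.Lam2
import Pool.Agent.Helper58K9.LQ.Cent2
import Pool.Agent.Helper58K9.LQ.Lift

/-!
# Lower semicontinuity of minimal log discrepancies of toric quotient pairs

`T`: an affine toric variety of dimension `n` with a fixed point, given by any strictly convex
rational cone of dimension `n` (simplicial or not). `G`: a finite group which acts on `T`. `X`: the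
quotient `T / G`, with the quotient map `π`. `B`: an effective `ℝ`-divisor on `X`; the divisor `B_T`
on `T` with `K_T + B_T = π^* (K_X + B)` is assumed to be effective, and for every `γ ∈ G` there is a
torus, normalised by `γ`, which makes `T` an affine toric variety with a fixed point, and leaves
`B_T` invariant (the torus may depend on `γ`). Nothing is assumed about the points fixed by `G`.
Examples: the quotients of affine toric varieties by finite groups of monomial automorphisms, with
`B = 0` if `G` acts freely in codimension one, and the quotients `(ℂ^n / G, B)` by finite linear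
groups with `π^* (K + B) = K`.

Theorem: the function `x ↦ mld_x (X, B)` on the closed points `x` of `X` is lower semicontinuous. More
precisely, every closed point `x₀` of `X` has an open neighbourhood `U` such that
`mld_x (X, B) ≥ mld_(x₀) (X, B)` for all closed points `x` of `U`. (Here `mld_x (X, B)` is defined by
any local equation of `K_X + B` at `x`; the theorem implies that it does not depend on it: take
`x = x₀`.)

All definitions are in `Pool.Agent.Helper58K9.LQ.Defs` (`IsQuot`, `ToricFor`, `IsToricQuotientPair`,
`mld`), in `Pool.Agent.Helper58K9.QT.Defs` (`Over`) and in the starting files `H436R3.Fol.Defs`,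
`H436R3.KT.Defs`, `W497.Mld.Defs`, `TH165.ACC.Germ` (valuations, `AffVar`, `Pt`, `EffDiv`, `LocEq`,
`IsOverGerm`, `IsLogDisc`, `IsMonomial`, `ToricGerm`).

The proof. Let `v` be a prime divisor over `X` with centre `x`, `w` a valuation over `v` with centre
`t ∈ T`, and `γ` a generator of its (tame, cyclic) inertia group, of order `r`. In the torus of `γ`,
`w` has weights `W`, a `γ`-invariant vector in the relative interior of a face of the cone.
Eigenfunctions of `γ` with the eigenvalues `≠ 1`, and `γ`-invariant monomials minus their values at
`t` (their order at `w` is divisible by `r`) give a lower bound of the log discrepancy of `v`. If `x`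
is near `x₀` then `t` lies in a closed set, defined by finitely many data of `w`, which contains a
point `t₀` over `x₀`. If we add to `W` suitable sums over `γ`-orbits of edges of the cone then we obtain
the weights of a valuation of `K` with centre `t₀`; it is constructed with an embedding of `K` in a
field of Laurent series which is adapted to `γ` and to `t₀`. Its restriction to the function field of
`X` shows that `mld_(x₀) (X, B)` is at most the log discrepancy of `v`.
-/

set_option autoImplicit false

namespace Pool.Agent.Results.MP_f23696_ag.ToricQuotientPairs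

open Pool.Agent.TH165.ACC Pool.Agent.W497.Mld Pool.Agent.H436R3.KT Pool.Agent.H436R3.Fol
  Pool.Agent.Helper58K9.QT Pool.Agent.Helper58K9.LQ

/-- The class contains all affine toric varieties (with a fixed point) and all effective toric
boundaries (`G` is trivial). -/
theorem toric_mem {n : ℕ} {K : Type} [Field K] [Algebra ℂ K]
    [Algebra (MvPolynomial (Fin n) ℂ) K] [IsFractionRing (MvPolynomial (Fin n) ℂ) K]
    [IsScalarTower ℂ (MvPolynomial (Fin n) ℂ) K] (g : ToricGerm n K) (B : EffDiv g.X)
    (hB : ∀ v, IsLocalRing' g.X.R v → B.mult v ≠ 0 → IsMonomial n v) :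
    IsToricQuotientPair n g.X B := by
  have h1 : ∀ γ : K ≃ₐ[K] K, ∀ f, γ f = f := fun γ f => γ.commutes f
  have hmult : ∀ v w : DVal K, (∀ f : K, f ≠ 0 → v.ord f = w.ord f) → B.mult v = B.mult w := by
    classical
    intro v w h
    simp only [EffDiv.mult]
    refine Finset.sum_congr rfl fun j _ => ?_
    congr 1
    apply propext
    constructor
    · intro h' f hf
      rw [← h f hf]
      exact h' f hf
    · intro h' f hf
      rw [h f hf]
      exact h' f hf
  refine ⟨K, inferInstance, inferInstance, Algebra.id K, inferInstance, g.X.R,
    { fin := inferInstance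
      gal := inferInstance
      inv := fun γ f hf => by rwa [h1]
      quot := fun f => Iff.rfl }, fun γ => ?_⟩
  refine ⟨inferInstance, inferInstance, inferInstance, g, rfl, fun m => ?_,
    fun w v e hw hov => ?_⟩
  · exact ⟨1, m, by rw [h1, map_one, one_mul]⟩
  · have h2 : ∀ f : K, f ≠ 0 → w.ord f = e * v.ord f := hov.2
    have he : e = 1 := by
      obtain ⟨f, hf, hf1⟩ := w.surj
      have h3 := h2 f hf
      rw [hf1] at h3
      exact Int.eq_one_of_mul_eq_one_right hov.1.le h3.symm
    subst he
    by_cases h0 : B.mult v = 0
    · left
      rw [h0]
      norm_num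
    · right
      have h4 : B.mult w = B.mult v := hmult w v fun f hf => by rw [h2 f hf, one_mul]
      refine ⟨hB w hw (by rw [h4]; exact h0), ?_⟩
      have h5 := mult_nonneg B v
      push_cast
      linarith

/-- **Lower semicontinuity of minimal log discrepancies of toric quotient pairs.** Let `(X, B)` be a
toric quotient pair and `x₀` a closed point of `X`. There is a regular function `f` on `X` with
`f (x₀) ≠ 0` such that `mld_(x₀) (X, B) ≤ mld_x (X, B)` for all closed points `x` of `X` with
`f (x) ≠ 0` (and all local equations of `K_X + B` at `x₀` and at `x`). -/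
theorem result (n : ℕ) (L : Type) [Field L] [Algebra ℂ L] (X : AffVar L) (B : EffDiv X)
    (h : IsToricQuotientPair n X B) (x₀ : Pt X) :
    ∃ f : X.R, x₀ f ≠ 0 ∧ ∀ (e₀ : LocEq B x₀) (x : Pt X), x f ≠ 0 → ∀ e : LocEq B x,
      mld e₀ ≤ mld e :=
  lsc face (comb2 face) tau2 diag2 low2 lam2 cent2 lift n X B h x₀

end Pool.Agent.Results.MP_f23696_ag.ToricQuotientPairs
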